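import Pool.Agent.W111.LAR.Cay2
import Pool.Agent.W111.LAR.Odd

set_option autoImplicit false

/-!
# Linear arboricity of Cayley graphs of odd degree: generators in pairs and one more involution
(helper365)
-/

namespace Y365.LA

open Finset SimpleGraph H931R3.LA Pool.Agent.W111.LAR

variable {Γ : Type} [Group Γ]

theorem cay_odd_pair [Finite Γ] (S : Finset Γ) (G : SimpleGraph Γ)
    (hG : ∀ g h, G.Adj g h ↔ g⁻¹ * h ∈ S) (t : Γ) (ht : t ∈ S) (σ : Γ → Γ)
    (htt : t * t = 1)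
    (hσ : ∀ s ∈ S, s ≠ t → σ s ∈ S ∧ σ s ≠ t ∧ σ (σ s) = s ∧ σ s ≠ s ∧ ClPair s (σ s))
    (hord : ∀ s ∈ S, s ≠ t →
      6 * S.card ≤ Nat.card (Subgroup.closure {s, σ s} : Subgroup Γ) + 14) :
    Cov G (S.card / 2 + 1) ∧ Odd S.card := by
  classical
  have := Fintype.ofFinite Γ
  have htinv : t⁻¹ = t := inv_eq_of_mul_eq_one_right htt
  have hone : (1 : Γ) ∉ S := by
    intro h
    exact G.irrefl ((hG 1 1).2 (by simpa using h))
  have ht1 : t ≠ 1 := fun h => hone (h ▸ ht)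
  set S' := S.erase t with hS'
  have hS'S : S' ⊆ S := erase_subset _ _
  have hσ' : ∀ s ∈ S', σ s ∈ S' ∧ σ (σ s) = s ∧ σ s ≠ s ∧ ClPair s (σ s) := by
    intro s hs
    obtain ⟨h1, h2⟩ := mem_erase.1 hs
    obtain ⟨h3, h4, h5, h6, h7⟩ := hσ s h2 h1
    exact ⟨mem_erase.2 ⟨h4, h3⟩, h5, h6, h7⟩
  obtain ⟨T, hTS, hT, hcard, -⟩ := halve2 S' σ (fun s hs => (hσ' s hs).1)
    (fun s hs => (hσ' s hs).2.1) (fun s hs => (hσ' s hs).2.2.1)
  have hScard : S.card = S'.card + 1 := (card_erase_add_one ht).symm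
  let P : SimpleGraph Γ := gen t ht1
  have hP : ∀ g, (P.neighborSet g).ncard ≤ 1 := by
    intro g
    have hsub : P.neighborSet g ⊆ {g * t} := by
      rintro h (hh | hh)
      · exact hh
      · rw [Set.mem_singleton_iff, hh, mul_assoc, htt, mul_one]
    exact le_trans (Set.ncard_le_ncard hsub (Set.toFinite _)) (by simp)
  have hGT : G = P ⊔ ⨆ s : T, pgr s.1 (σ s.1) := by
    ext g h
    rw [sup_adj, iSup_adj]
    constructor
    · intro hh
      have h1 : g⁻¹ * h ∈ S := (hG g h).1 hh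
      by_cases hgt : g⁻¹ * h = t
      · left
        left
        rw [← hgt]; simp
      · right
        have h1' : g⁻¹ * h ∈ S' := mem_erase.2 ⟨hgt, h1⟩
        rcases hT _ h1' with h2 | h2
        · exact ⟨⟨_, h2⟩, hh.ne, Or.inl (by simp)⟩
        · exact ⟨⟨_, h2⟩, hh.ne, Or.inr (Or.inl (by simp [(hσ' _ h1').2.1]))⟩
    · rintro ((h1 | h1) | ⟨s, hs⟩)
      · rw [hG, h1]; simpa using ht
      · rw [hG, h1]
        have : (h * t)⁻¹ * h = t⁻¹ := by group
        rw [this, htinv]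
        exact ht
      · rw [hG]
        rcases pgr_adj (hσ' s.1 (hTS s.2)).2.2.2 g h hs with h1 | h1
        · rw [h1, inv_mul_cancel_left]
          exact hS'S (hTS s.2)
        · rw [h1, inv_mul_cancel_left]
          exact hS'S (hσ' s.1 (hTS s.2)).1
  have h1 := cov_matching (fun s : T => pgr s.1 (σ s.1)) P
    (fun s g => pgr_deg (hσ' s.1 (hTS s.2)).2.2.2 g) hP (6 * S.card - 14) (by
      rw [Fintype.card_coe]
      omega) (by
      intro s g _
      have h2 : Nat.card (Subgroup.closure {s.1, σ s.1} : Subgroup Γ) ≤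
        csize (pgr s.1 (σ s.1)) g := pgr_size g
      have h3 := mem_erase.1 (hTS s.2)
      have h4 := hord s.1 h3.2 h3.1
      omega)
  rw [Fintype.card_coe, ← hGT] at h1
  have h2 : S.card / 2 = T.card := by omega
  refine ⟨by rwa [h2], ?_⟩
  rw [Nat.odd_iff]
  omega

end Y365.LA
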